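import Mathlib
import Pool.Agent.H.MP_a4b8ee_gt.A

set_option autoImplicit false

namespace Pool.Agent.Results.MP_a4b8ee_gt.CHNo

open Cardinal

theorem result (hc : (𝔠 : Cardinal.{0}) = ℵ₁) : ∃ (X : Type) (_ : TopologicalSpace X), T3Space X ∧
    LindelofSpace X ∧ (∀ B : Set (Set X), TopologicalSpace.IsTopologicalBasis B → ∃ C ⊆ B,
      LocallyFinite (fun s : C => (s : Set X)) ∧ ⋃₀ C = Set.univ) ∧
    ∃ U : ℕ → Set (Set X), (∀ n, ∀ s ∈ U n, IsOpen s) ∧ (∀ n, ⋃₀ U n = Set.univ) ∧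
      ∀ A : ℕ → Set (Set X), (∀ n, A n ⊆ U n ∧ (A n).Finite) → ⋃ n, ⋃₀ A n ≠ Set.univ :=
  H.MP_a4b8ee_gt.main hc

end Pool.Agent.Results.MP_a4b8ee_gt.CHNo
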